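import Pool.Agent.W601.RP.Stm2

set_option autoImplicit false
open scoped Classical
open Filter Topology

namespace Pool.Agent.W344.RP

open Pool.Agent.W601.RP

noncomputable section

/-- The `b` largest elements of a finite set. -/
theorem exists_cut (S : Finset ℕ) (thr b : ℕ) (hb : 1 ≤ b) (h : thr + b ≤ S.card) :
    ∃ u, thr ≤ u ∧ u ∈ S ∧ (S.filter (fun t => u ≤ t)).card = b := by
  classical
  obtain ⟨Bd, hBd⟩ : ∃ Bd, ∀ t ∈ S, t < Bd := ⟨S.sup id + 1, fun t ht =>
    Nat.lt_succ_of_le (Finset.le_sup (f := id) ht)⟩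
  let f : ℕ → ℕ := fun u => (S.filter (fun t => u ≤ t)).card
  have hf : ∀ u, f u = (S.filter (fun t => u ≤ t)).card := fun _ => rfl
  have hthr : b ≤ f thr := by
    have h1 : (S.filter (fun t => thr ≤ t)).card + (S.filter (fun t => ¬ thr ≤ t)).card = S.card :=
      Finset.card_filter_add_card_filter_not _
    have h2 : (S.filter (fun t => ¬ thr ≤ t)).card ≤ thr := by
      have : S.filter (fun t => ¬ thr ≤ t) ⊆ Finset.range thr := by
        intro t ht
        rw [Finset.mem_filter] at ht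
        exact Finset.mem_range.mpr (by omega)
      simpa using Finset.card_le_card this
    rw [hf]; omega
  have hBd0 : f Bd = 0 := by
    rw [hf, Finset.card_eq_zero, Finset.filter_eq_empty_iff]
    intro t ht
    have := hBd t ht
    omega
  have hthrBd : thr ≤ Bd := by
    by_contra hc
    push Not at hc
    have : f thr ≤ f Bd := Finset.card_le_card (by
      intro t ht
      rw [Finset.mem_filter] at ht ⊢
      exact ⟨ht.1, by omega⟩)
    omega
  let u := Nat.findGreatest (fun u => b ≤ f u) Bd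
  have hu1 : b ≤ f u := Nat.findGreatest_spec (P := fun u => b ≤ f u) hthrBd hthr
  have hu2 : thr ≤ u := Nat.le_findGreatest hthrBd hthr
  have hu3 : f (u + 1) < b := by
    by_contra hc
    push Not at hc
    by_cases h4 : u + 1 ≤ Bd
    · have : u + 1 ≤ u := Nat.le_findGreatest (P := fun u => b ≤ f u) h4 hc
      omega
    · have h5 : f (u + 1) ≤ f Bd := Finset.card_le_card (by
        intro t ht
        rw [Finset.mem_filter] at ht ⊢
        exact ⟨ht.1, by omega⟩)
      omega
  have hsub : S.filter (fun t => u ≤ t) ⊆ insert u (S.filter (fun t => u + 1 ≤ t)) := by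
    intro t ht
    rw [Finset.mem_filter] at ht
    rw [Finset.mem_insert, Finset.mem_filter]
    rcases Nat.lt_or_ge u t with h6 | h6
    · right; exact ⟨ht.1, h6⟩
    · left; omega
  have hle : f u ≤ f (u + 1) + 1 := (Finset.card_le_card hsub).trans (Finset.card_insert_le _ _)
  refine ⟨u, hu2, ?_, ?_⟩
  · by_contra hc
    have : f u ≤ f (u + 1) := Finset.card_le_card (by
      intro t ht
      rw [Finset.mem_filter] at ht ⊢
      refine ⟨ht.1, ?_⟩
      rcases Nat.lt_or_ge u t with h6 | h6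
      · exact h6
      · have : t = u := by omega
        exact absurd (this ▸ ht.1) hc)
    omega
  · change f u = b
    omega

theorem N_ge (t : ℕ) : t ≤ N t := by
  unfold N
  have := Nat.self_le_factorial (t + 1)
  omega

theorem N_pos (t : ℕ) : 0 < N t := by
  unfold N
  have := Nat.factorial_pos (t + 1)
  omega

theorem frac_neg (n a : ℕ) (hn : 0 < n) (ha : a < n) :
    (((((n - a : ℕ) : ℝ) / (n : ℝ)) : ℝ) : TT) = - ((((a : ℝ) / (n : ℝ)) : ℝ) : TT) := by
  have h1 : (((n - a : ℕ) : ℝ) / (n : ℝ)) = 1 + -((a : ℝ) / (n : ℝ)) := by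
    rw [Nat.cast_sub ha.le]
    have : (n : ℝ) ≠ 0 := by exact_mod_cast hn.ne'
    field_simp
    ring
  rw [h1, AddCircle.coe_add, AddCircle.coe_period, zero_add, AddCircle.coe_neg]

/-- The flexibility of one block. -/
theorem block (hC : S_CIR) (hS : S_SGN) (k : ℕ →₀ ℤ) (hk : Red k) (B : Finset ℕ)
    (hB : B ⊆ k.support) (δ : ℝ) (hδ : 0 < δ) (hδ2 : δ ≤ 1 / 2) (hN : ∀ t ∈ B, 8 ≤ δ * N t)
    (hcard : 2 ≤ δ * B.card) (r : TT) :
    ∃ f : ℕ → ℕ, (∀ t, f t < N t) ∧ (∀ t, f t ≠ 0 → t ∈ B) ∧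
      (∀ t, ‖((((f t : ℝ) / (N t : ℝ)) : ℝ) : TT)‖ ≤ δ) ∧
      1 / 8 ≤ ‖r + ∑ t ∈ B, (k t) • ((((f t : ℝ) / (N t : ℝ)) : ℝ) : TT)‖ := by
  classical
  have hex : ∀ t, ∃ a : ℕ, t ∈ B → (a < N t ∧ ‖((((a : ℝ) / (N t : ℝ)) : ℝ) : TT)‖ ≤ δ ∧
      δ / 2 ≤ ‖(k t) • ((((a : ℝ) / (N t : ℝ)) : ℝ) : TT)‖) := by
    intro t
    by_cases ht : t ∈ B
    · obtain ⟨a, h1, h2, h3⟩ := hC.2.2.1 (N t) (k t) δ hδ hδ2 (hN t ht)
        (Finsupp.mem_support_iff.mp (hB ht)) (hk t).1 (hk t).2
      exact ⟨a, fun _ => ⟨h1, h2, h3⟩⟩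
    · exact ⟨0, fun h => absurd h ht⟩
  choose a ha using hex
  obtain ⟨σ, hσ, hσ2⟩ := (hS B (fun t => (k t) • ((((a t : ℝ) / (N t : ℝ)) : ℝ) : TT)) δ hδ
    (fun t ht => (ha t ht).2.2) hcard).1 r
  let f : ℕ → ℕ := fun t => if t ∈ B then (if σ t = 1 then a t else
    if σ t = -1 then (if a t = 0 then 0 else N t - a t) else 0) else 0
  have hf : ∀ t ∈ B, ((((f t : ℝ) / (N t : ℝ)) : ℝ) : TT) =
      σ t • ((((a t : ℝ) / (N t : ℝ)) : ℝ) : TT) := by
    intro t ht
    have hat := (ha t ht).1
    simp only [f, if_pos ht]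
    rcases hσ t with h | h | h
    · simp [h]
    · simp [h]
    · rw [h]
      by_cases h0 : a t = 0
      · simp [h0]
      · rw [if_neg (by norm_num), if_pos rfl, if_neg h0, frac_neg _ _ (N_pos t) hat]
        simp
  refine ⟨f, ?_, ?_, ?_, ?_⟩
  · intro t
    by_cases ht : t ∈ B
    · have hat := (ha t ht).1
      simp only [f, if_pos ht]
      split_ifs <;> omega
    · simp only [f, if_neg ht]
      exact N_pos t
  · intro t h
    by_contra ht
    exact h (by simp only [f, if_neg ht])
  · intro t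
    by_cases ht : t ∈ B
    · rw [hf t ht]
      rcases hσ t with h | h | h
      · rw [h]; simpa using hδ.le
      · rw [h, one_smul]; exact (ha t ht).2.1
      · rw [h, neg_smul, one_smul, norm_neg]; exact (ha t ht).2.1
    · simp only [f, if_neg ht]
      simpa using hδ.le
  · have : ∑ t ∈ B, (k t) • ((((f t : ℝ) / (N t : ℝ)) : ℝ) : TT) =
        ∑ t ∈ B, σ t • ((k t) • ((((a t : ℝ) / (N t : ℝ)) : ℝ) : TT)) := by
      refine Finset.sum_congr rfl (fun t ht => ?_)
      rw [hf t ht, smul_comm]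
    rw [this]
    exact hσ2

theorem geo (n : ℕ) : ∑ l ∈ Finset.range n, (1 / 2 : ℝ) ^ (l + 2) ≤ 1 / 2 := by
  have : ∀ n : ℕ, ∑ l ∈ Finset.range n, (1 / 2 : ℝ) ^ (l + 2) = 1 / 2 - (1 / 2 : ℝ) ^ (n + 1) := by
    intro n
    induction n with
    | zero => norm_num
    | succ m ih => rw [Finset.sum_range_succ, ih]; ring
  rw [this]
  have : (0 : ℝ) < (1 / 2 : ℝ) ^ (n + 1) := by positivity
  linarith

theorem supp : S_GH → S_NU0 → S_CIR → S_SGN → S_SUPP := by
  intro hGH hNU hC hS k hRed hNull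
  classical
  by_contra hunb
  push Not at hunb
  -- the parameters
  let δ : ℕ → ℝ := fun l => (1 / 2 : ℝ) ^ (l + 3)
  let b : ℕ → ℕ := fun l => 2 ^ (l + 6)
  have hδpos : ∀ l, 0 < δ l := fun l => by positivity
  have hδ2 : ∀ l, δ l ≤ 1 / 2 := fun l => by
    have : (1 / 2 : ℝ) ^ (l + 3) ≤ (1 / 2 : ℝ) ^ 1 :=
      pow_le_pow_of_le_one (by norm_num) (by norm_num) (by omega)
    simpa [δ] using this
  have hbδ : ∀ l, δ l * (b l : ℝ) = 8 := fun l => by
    simp only [δ, b]
    push_cast
    rw [show (2 : ℝ) ^ (l + 6) = 2 ^ (l + 3) * 8 by ring, ← mul_assoc, ← mul_pow]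
    norm_num
  have hb1 : ∀ l, 1 ≤ b l := fun l => Nat.one_le_two_pow
  have hbpos : ∀ l, (0 : ℝ) < b l := fun l => by exact_mod_cast hb1 l
  -- thresholds for nu and N
  have hc : ∀ l, ∃ c : ℕ, ∀ t, c ≤ t → nu t ≤ (1 / 2 : ℝ) ^ (l + 2) / b l ∧ 8 ≤ δ l * N t := by
    intro l
    have hp : (0 : ℝ) < (1 / 2 : ℝ) ^ (l + 2) / b l := by
      have := hbpos l
      positivity
    have hfin := hNU.1 _ hp
    obtain ⟨m, hm⟩ := hfin.bddAbove
    refine ⟨max (m + 1) (b l), fun t ht => ⟨?_, ?_⟩⟩
    · by_contra h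
      push Not at h
      have : t ≤ m := hm h.le
      have := le_max_left (m + 1) (b l)
      omega
    · have h1 : b l ≤ N t := ((le_max_right (m + 1) (b l)).trans ht).trans (N_ge t)
      have h2 : (b l : ℝ) ≤ N t := by exact_mod_cast h1
      calc (8 : ℝ) = δ l * b l := (hbδ l).symm
        _ ≤ δ l * N t := mul_le_mul_of_nonneg_left h2 (hδpos l).le
  choose c hc using hc
  -- bounds of the supports
  have hT : ∀ J : ℕ, ∃ T : ℕ, ∀ i ≤ J, ∀ t ∈ (k i).support, t < T := by
    intro J
    refine ⟨(Finset.range (J + 1)).sup (fun i => (k i).support.sup id) + 1, fun i hi t ht => ?_⟩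
    have h1 : t ≤ (k i).support.sup id := Finset.le_sup (f := id) ht
    have h2 : (k i).support.sup id ≤ (Finset.range (J + 1)).sup (fun i => (k i).support.sup id) :=
      Finset.le_sup (f := fun i => (k i).support.sup id) (Finset.mem_range.mpr (by omega))
    omega
  choose T hT using hT
  have hbig : ∀ L J : ℕ, ∃ j, J < j ∧ L ≤ (k j).support.card := by
    intro L J
    obtain ⟨j, hj⟩ := hunb (max L ((Finset.range (J + 1)).sup (fun i => (k i).support.card)))
    refine ⟨j, ?_, (le_max_left _ _).trans hj.le⟩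
    by_contra hc
    push Not at hc
    have h2 : (k j).support.card ≤ (Finset.range (J + 1)).sup (fun i => (k i).support.card) :=
      Finset.le_sup (f := fun i => (k i).support.card) (Finset.mem_range.mpr (by omega))
    exact absurd (h2.trans (le_max_right L _)) (not_le.mpr hj)
  have hg : ∀ l J : ℕ, ∃ j, J < j ∧ max (T J) (c l) + b l ≤ (k j).support.card :=
    fun l J => hbig _ _
  choose g hg1 hg2 using hg
  -- the recursion
  let j : ℕ → ℕ := fun l => Nat.rec (g 0 0) (fun l J => g (l + 1) J) l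
  have hj0 : j 0 = g 0 0 := rfl
  have hjs : ∀ l, j (l + 1) = g (l + 1) (j l) := fun l => rfl
  have hjmono : StrictMono j := strictMono_nat_of_lt_succ (fun l => by rw [hjs]; exact hg1 _ _)
  have hu : ∀ l, ∃ u : ℕ, c l ≤ u ∧ u ∈ (k (j l)).support ∧
      ((k (j l)).support.filter (fun t => u ≤ t)).card = b l ∧
      ∀ m, l = m + 1 → T (j m) ≤ u := by
    intro l
    cases l with
    | zero =>
      obtain ⟨u, h1, h2, h3⟩ := exists_cut (k (j 0)).support (max (T 0) (c 0)) (b 0) (hb1 0)
        (by rw [hj0]; exact hg2 0 0)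
      exact ⟨u, (le_max_right _ _).trans h1, h2, h3, fun m hm => by omega⟩
    | succ l =>
      obtain ⟨u, h1, h2, h3⟩ := exists_cut (k (j (l + 1))).support (max (T (j l)) (c (l + 1)))
        (b (l + 1)) (hb1 _) (by rw [hjs]; exact hg2 (l + 1) (j l))
      refine ⟨u, (le_max_right _ _).trans h1, h2, h3, fun m hm => ?_⟩
      have : m = l := by omega
      subst this
      exact (le_max_left _ _).trans h1
  choose u hu1 hu2 hu3 hu4 using hu
  have hsupp : ∀ l, ∀ t ∈ (k (j l)).support, t < u (l + 1) := fun l t ht =>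
    lt_of_lt_of_le (hT (j l) (j l) le_rfl t ht) (hu4 (l + 1) l rfl)
  have humono : StrictMono u := strictMono_nat_of_lt_succ (fun l => hsupp l _ (hu2 l))
  -- sums of nu
  let W : Set ℕ := ⋃ l, {t | t ∈ (k (j l)).support ∧ u l ≤ t}
  have hnn : ∀ t, 0 ≤ W.indicator nu t := fun t => Set.indicator_nonneg (fun t _ => hNU.2.2 t) t
  have hsum : ∀ s : Finset ℕ, ∑ t ∈ s, W.indicator nu t ≤ 1 / 2 := by
    intro s
    let n := s.sup id + 1
    let B : ℕ → Finset ℕ := fun l => (k (j l)).support.filter (fun t => u l ≤ t)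
    have h1 : ∀ t ∈ s, W.indicator nu t ≤ ∑ l ∈ Finset.range n, if t ∈ B l then nu t else 0 := by
      intro t ht
      by_cases htW : t ∈ W
      · rw [Set.indicator_of_mem htW]
        obtain ⟨l, hl⟩ := Set.mem_iUnion.mp htW
        have hl' : t ∈ (k (j l)).support ∧ u l ≤ t := hl
        have hln : l < n := by
          have a1 : l ≤ u l := humono.le_apply
          have a2 : t ≤ s.sup id := Finset.le_sup (f := id) ht
          have a3 := hl'.2
          simp only [n]
          omega
        have h2 : (if t ∈ B l then nu t else 0) = nu t := by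
          rw [if_pos]
          exact Finset.mem_filter.mpr hl'
        calc nu t = (if t ∈ B l then nu t else 0) := h2.symm
          _ ≤ ∑ l ∈ Finset.range n, if t ∈ B l then nu t else 0 :=
            Finset.single_le_sum (f := fun l => if t ∈ B l then nu t else 0)
              (fun l _ => by
                change 0 ≤ if t ∈ B l then nu t else 0
                split_ifs
                · exact hNU.2.2 t
                · exact le_rfl) (Finset.mem_range.mpr hln)
      · rw [Set.indicator_of_notMem htW]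
        exact Finset.sum_nonneg (fun l _ => by
          split_ifs
          · exact hNU.2.2 t
          · exact le_rfl)
    calc ∑ t ∈ s, W.indicator nu t
        ≤ ∑ t ∈ s, ∑ l ∈ Finset.range n, (if t ∈ B l then nu t else 0) := Finset.sum_le_sum h1
      _ = ∑ l ∈ Finset.range n, ∑ t ∈ s, (if t ∈ B l then nu t else 0) := Finset.sum_comm
      _ ≤ ∑ l ∈ Finset.range n, (1 / 2 : ℝ) ^ (l + 2) := by
          refine Finset.sum_le_sum (fun l _ => ?_)
          rw [← Finset.sum_filter]
          calc ∑ t ∈ s.filter (fun t => t ∈ B l), nu t ≤ ∑ t ∈ B l, nu t :=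
                Finset.sum_le_sum_of_subset_of_nonneg
                  (fun t ht => (Finset.mem_filter.mp ht).2) (fun t _ _ => hNU.2.2 t)
            _ ≤ ∑ t ∈ B l, (1 / 2 : ℝ) ^ (l + 2) / b l := by
                refine Finset.sum_le_sum (fun t ht => ?_)
                have := (Finset.mem_filter.mp ht).2
                exact (hc l t ((hu1 l).trans this)).1
            _ = (1 / 2 : ℝ) ^ (l + 2) := by
                rw [Finset.sum_const, nsmul_eq_mul]
                have h5 : (B l).card = b l := hu3 l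
                rw [h5]
                have := (hbpos l).ne'
                field_simp
      _ ≤ 1 / 2 := geo n
  have hsm : Summable (W.indicator nu) := summable_of_sum_le hnn hsum
  have hlt : (∑' t, W.indicator nu t) < 1 := lt_of_le_of_lt
    (hsm.tsum_le_of_sum_le hsum) (by norm_num)
  -- the families
  let 𝓕 : ℕ → Set (ℕ → ℕ) := fun l => {f | (∀ t, f t < N t) ∧
    (∀ t, f t ≠ 0 → t ∈ (k (j l)).support ∧ u l ≤ t) ∧
    ∀ t, ‖((((f t : ℝ) / (N t : ℝ)) : ℝ) : TT)‖ ≤ δ l}
  obtain ⟨q, hq, hq2⟩ := hGH (fun l => k (j l)) u humono hsupp hsm hlt 𝓕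
    (fun l f hf t => ⟨hf.1 t, hf.2.1 t⟩)
    (fun l r => by
      obtain ⟨f, h1, h2, h3, h4⟩ := block hC hS (k (j l)) (hRed (j l))
        ((k (j l)).support.filter (fun t => u l ≤ t)) (Finset.filter_subset _ _) (δ l) (hδpos l)
        (hδ2 l) (fun t ht => (hc l t ((hu1 l).trans (Finset.mem_filter.mp ht).2)).2)
        (by rw [hu3 l, hbδ l]; norm_num) r
      exact ⟨f, ⟨h1, fun t ht => Finset.mem_filter.mp (h2 t ht), h3⟩, h4⟩)
    (fun gg h0 hl A _ η hη => by
      obtain ⟨L, hL⟩ := exists_pow_lt_of_lt_one hη (show (1 / 2 : ℝ) < 1 by norm_num)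
      refine (Set.finite_lt_nat (u L)).subset (fun t ht => ?_)
      by_contra hc'
      have hge : u L ≤ t := not_lt.mp hc'
      -- find the block of t
      obtain ⟨l, hl1, hl2⟩ : ∃ l, u l ≤ t ∧ t < u (l + 1) := by
        let l := Nat.findGreatest (fun l => u l ≤ t) (t + 1)
        have a1 : L ≤ t + 1 := ((humono.le_apply (x := L)).trans hge).trans (Nat.le_succ t)
        have a2 : u l ≤ t := Nat.findGreatest_spec (P := fun l => u l ≤ t) a1 hge
        refine ⟨l, a2, ?_⟩
        by_contra hc2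
        push Not at hc2
        have a3 : l + 1 ≤ t + 1 := ((humono.le_apply (x := l + 1)).trans hc2).trans (Nat.le_succ t)
        have a4 : l + 1 ≤ l := Nat.le_findGreatest (P := fun l => u l ≤ t) a3 hc2
        omega
      have hLl : L ≤ l := by
        by_contra hc2
        push Not at hc2
        have : u (l + 1) ≤ u L := humono.monotone hc2
        omega
      obtain ⟨f, hf, hgf⟩ := hl l
      have h5 := hf.2.2 t
      rw [← hgf t hl1 hl2] at h5
      have h6 : δ l ≤ (1 / 2 : ℝ) ^ L :=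
        pow_le_pow_of_le_one (by norm_num) (by norm_num) (by omega)
      exact absurd ht.2 (not_le.mpr (lt_of_le_of_lt (h5.trans h6) hL)))
  have hx : x q ∈ H := AddSubgroup.subset_closure ⟨q, hq, rfl⟩
  have htend := ((hNull (x q) hx).comp hjmono.tendsto_atTop).norm
  rw [norm_zero] at htend
  have hev := htend.eventually (gt_mem_nhds (show (0 : ℝ) < 1 / 8 by norm_num))
  obtain ⟨l, hl⟩ := hev.exists
  exact absurd (hq2 l) (not_le.mpr hl)

end

end Pool.Agent.W344.RP
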